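import Pool.Agent.H678R3.Attr.Iso

/-!
# Finitude of attractors near flag preserving diffeomorphisms of tori

`IsFlagDiffeo r f`: `f` is a `C^r` diffeomorphism of `𝕋^d` with
`f(x)_k = f_k(x_k, …, x_{d-1})` for all `k`, each `f_k` preserving the orientation in `x_k`.

Built on the library of helper637 and its team (density of the flag preserving diffeomorphisms with
finitely many hyperbolic periodic points absorbing everything) and of helper728 (hyperbolicity).
-/

namespace Pool.Agent.Results.MP_3a2b62_an.FlagDiffeos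

open Pool.Agent.H728R2.OS Pool.Agent.H637R2.TD

/-- Arbitrarily `C^k` close (`k ≤ r` finite) to every flag preserving `C^r` diffeomorphism `f` of
`𝕋^d` there is a flag preserving `C^r` diffeomorphism `g` such that all homeomorphisms `h` of `𝕋^d`
in a `C^1` neighbourhood of `g` have finitely many attractors, whose basins cover `𝕋^d` up to a set
of Lebesgue measure zero; moreover the chain recurrent set of `h` is finite. -/
theorem result (d : ℕ) (r : ℕ∞) (hr : 1 ≤ r) (f : Torus d ≃ₜ Torus d) (hf : IsFlagDiffeo r f)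
    (k : ℕ) (hk : (k : ℕ∞) ≤ r) (ε : ℝ) (hε : 0 < ε) :
    ∃ g : Torus d ≃ₜ Torus d, IsFlagDiffeo r g ∧ CkClose toTorus k ε f g ∧
      ∃ η : ℝ, 0 < η ∧ ∀ h : Torus d ≃ₜ Torus d, CkClose toTorus 1 η g h →
        FinitelyManyAttractors h ∧ (ChainRec h).Finite := by
  obtain ⟨g, h1, h2, η, hη, h3⟩ := Pool.Agent.H678R3.Attr.main hr f hf k hk ε hε
  exact ⟨g, h1, h2, η, hη, fun h hh => ⟨(h3 h hh).2, (h3 h hh).1⟩⟩

end Pool.Agent.Results.MP_3a2b62_an.FlagDiffeos
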